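import Mathlib

set_option autoImplicit false

namespace Pool.Agent.Results.MP_270153_nt.NoConstants

open Finset

/-- `S m N = ∑_{k=0}^{N} (4k-1)^m (-1/2)_k^4 / k!^4`; the rising factorial `(-1/2)_k` is the value
at `-1/2` of Mathlib's `ascPochhammer`. -/
noncomputable def S (m N : ℕ) : ℚ :=
  ∑ k ∈ range (N + 1),
    (4 * (k : ℚ) - 1) ^ m * ((ascPochhammer ℚ k).eval (-1 / 2)) ^ 4 / (k.factorial : ℚ) ^ 4

/-- `x ≡ y (mod p^n)` for rational numbers: `x - y = p^n * (u / v)` with integers `u`, `v` and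
`p ∤ v`. -/
def CongMod (p n : ℕ) (x y : ℚ) : Prop :=
  ∃ u v : ℤ, ¬ (p : ℤ) ∣ v ∧ x - y = (p : ℚ) ^ n * ((u : ℚ) / (v : ℚ))

/-- The integers `4^k (-1/2)_k / k!`. -/
def e : ℕ → ℤ
  | 0 => 1
  | k + 1 => e k * (4 * (k : ℤ) - 2) / ((k : ℤ) + 1)

/-- The integer `256^N S m N`. -/
def T (m N : ℕ) : ℤ := ∑ k ∈ range (N + 1), (4 * (k : ℤ) - 1) ^ m * e k ^ 4 * 256 ^ (N - k)

theorem e_rec : ∀ k : ℕ, k < 48 → ((k : ℤ) + 1) * e (k + 1) = e k * (4 * (k : ℤ) - 2) := by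
  decide +kernel

theorem e_eq : ∀ k ≤ 48, (ascPochhammer ℚ k).eval (-1 / 2) / (k.factorial : ℚ) = e k / 4 ^ k := by
  intro k
  induction k with
  | zero => intro _; simp [e]
  | succ k ih =>
    intro hk
    have h := ih (by omega)
    have h1 := e_rec k (by omega)
    have h2 : ((k : ℚ) + 1) * (e (k + 1) : ℚ) = e k * (4 * k - 2) := by exact_mod_cast h1
    have hf : (k.factorial : ℚ) ≠ 0 := by exact_mod_cast k.factorial_ne_zero
    have hk1 : (k : ℚ) + 1 ≠ 0 := by positivity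
    rw [ascPochhammer_succ_eval, Nat.factorial_succ]
    generalize (ascPochhammer ℚ k).eval (-1 / 2) = E at h ⊢
    generalize (e (k + 1) : ℚ) = y at h2 ⊢
    generalize (e k : ℚ) = z at h2 h ⊢
    rw [div_eq_div_iff hf (by positivity)] at h
    rw [div_eq_div_iff (by positivity) (by positivity)]
    push_cast
    rw [pow_succ]
    linear_combination (-1 / 2 + (k : ℚ)) * 4 * h - (k.factorial : ℚ) * h2

theorem pow_aux (k N : ℕ) (h : k ≤ N) : (256 : ℚ) ^ N = 256 ^ (N - k) * (4 ^ k) ^ 4 := by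
  rw [← pow_mul, show k * 4 = 4 * k by ring, pow_mul, show (4 : ℚ) ^ 4 = 256 by norm_num, ← pow_add]
  congr 1
  omega

theorem S_eq (m N : ℕ) (hN : N ≤ 48) : 256 ^ N * S m N = T m N := by
  unfold S T
  push_cast
  rw [Finset.mul_sum]
  apply Finset.sum_congr rfl
  intro k hk
  have hk' : k ≤ N := by have := Finset.mem_range.1 hk; omega
  have h := e_eq k (by omega)
  rw [mul_div_assoc, ← div_pow, h, div_pow, pow_aux k N hk']
  field_simp

theorem int_dvd {p n m N : ℕ} (hp : p.Prime) (h2 : Nat.Coprime p 256) (hN : N ≤ 48) {D : ℤ}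
    (h : CongMod p n (S m N) D) : (p : ℤ) ^ n ∣ T m N - 256 ^ N * D := by
  obtain ⟨u, v, hv, he⟩ := h
  have hv0 : (v : ℚ) ≠ 0 := by
    rintro h0
    apply hv
    have : v = 0 := by exact_mod_cast h0
    simp [this]
  have h3 : (v : ℚ) * ((T m N : ℚ) - 256 ^ N * D) = (p : ℚ) ^ n * (256 ^ N * u) := by
    rw [← S_eq m N hN, ← mul_sub, he]
    field_simp
  have h4 : v * (T m N - 256 ^ N * D) = (p : ℤ) ^ n * (256 ^ N * u) := by exact_mod_cast h3
  have hc : IsCoprime ((p : ℤ) ^ n) v := by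
    apply IsCoprime.pow_left
    exact ((Nat.prime_iff_prime_int.1 hp).coprime_iff_not_dvd).2 hv
  exact hc.dvd_of_dvd_mul_left ⟨_, h4⟩

theorem no_int {p m N₁ N₂ : ℕ} (hp : p.Prime) (h2 : Nat.Coprime p 256) (hN₁ : N₁ ≤ 48)
    (hN₂ : N₂ ≤ 48) (d : ℤ) (h1 : CongMod p (1 + 3) (S m N₁) ((d : ℚ) * (p : ℚ) ^ 1))
    (h3 : CongMod p (2 + 3) (S m N₂) ((d : ℚ) * (p : ℚ) ^ 2))
    (hne : ¬ (p : ℤ) ^ 5 ∣ p * T m N₁ * 256 ^ N₂ - T m N₂ * 256 ^ N₁) : False := by
  apply hne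
  have a1 : (p : ℤ) ^ 4 ∣ T m N₁ - 256 ^ N₁ * (d * p ^ 1) :=
    int_dvd hp h2 hN₁ (D := d * p ^ 1) (by push_cast; exact h1)
  have a2 : (p : ℤ) ^ 5 ∣ T m N₂ - 256 ^ N₂ * (d * p ^ 2) :=
    int_dvd hp h2 hN₂ (D := d * p ^ 2) (by push_cast; exact h3)
  obtain ⟨x, hx⟩ := a1
  obtain ⟨y, hy⟩ := a2
  refine ⟨x * 256 ^ N₂ - y * 256 ^ N₁, ?_⟩
  linear_combination (p : ℤ) * 256 ^ N₂ * hx - 256 ^ N₁ * hy

/-- **The conjecture is false.** For `(m, p) = (11, 3)`, `(15, 5)` and `(19, 7)` no integer `d`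
satisfies `S_m((p^r+1)/2) ≡ d p^r (mod p^(r+3))` for both `r = 1` and `r = 2`, and no integer `d`
satisfies `S_m(p^r-1) ≡ d p^r (mod p^(r+3))` for both `r = 1` and `r = 2`. In particular it is not
true that for every odd `m` there is an integer `d_m` for which both families of congruences hold
for all odd primes `p` and all `r ≥ 1`. -/
theorem result :
    (∀ x ∈ ({(11, 3), (15, 5), (19, 7)} : Finset (ℕ × ℕ)), ∀ d : ℤ,
      (∃ r ∈ ({1, 2} : Finset ℕ),
        ¬ CongMod x.2 (r + 3) (S x.1 ((x.2 ^ r + 1) / 2)) ((d : ℚ) * (x.2 : ℚ) ^ r)) ∧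
      (∃ r ∈ ({1, 2} : Finset ℕ),
        ¬ CongMod x.2 (r + 3) (S x.1 (x.2 ^ r - 1)) ((d : ℚ) * (x.2 : ℚ) ^ r))) ∧
    ¬ (∀ m : ℕ, 0 < m → Odd m → ∃ d : ℤ, ∀ p : ℕ, p.Prime → Odd p → ∀ r : ℕ, 1 ≤ r →
      CongMod p (r + 3) (S m ((p ^ r + 1) / 2)) ((d : ℚ) * (p : ℚ) ^ r) ∧
      CongMod p (r + 3) (S m (p ^ r - 1)) ((d : ℚ) * (p : ℚ) ^ r)) := by
  have key : ∀ x ∈ ({(11, 3), (15, 5), (19, 7)} : Finset (ℕ × ℕ)), ∀ d : ℤ,
      (∃ r ∈ ({1, 2} : Finset ℕ),
        ¬ CongMod x.2 (r + 3) (S x.1 ((x.2 ^ r + 1) / 2)) ((d : ℚ) * (x.2 : ℚ) ^ r)) ∧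
      (∃ r ∈ ({1, 2} : Finset ℕ),
        ¬ CongMod x.2 (r + 3) (S x.1 (x.2 ^ r - 1)) ((d : ℚ) * (x.2 : ℚ) ^ r)) := by
    intro x hx d
    simp only [Finset.mem_insert, Finset.mem_singleton] at hx
    rcases hx with rfl | rfl | rfl
    · constructor
      · by_contra hcon
        push Not at hcon
        exact no_int (p := 3) (m := 11) (N₁ := (3 ^ 1 + 1) / 2) (N₂ := (3 ^ 2 + 1) / 2) (by norm_num)
          (by norm_num) (by norm_num) (by norm_num) d (hcon 1 (by simp)) (hcon 2 (by simp))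
          (by decide +kernel)
      · by_contra hcon
        push Not at hcon
        exact no_int (p := 3) (m := 11) (N₁ := 3 ^ 1 - 1) (N₂ := 3 ^ 2 - 1) (by norm_num)
          (by norm_num) (by norm_num) (by norm_num) d (hcon 1 (by simp)) (hcon 2 (by simp))
          (by decide +kernel)
    · constructor
      · by_contra hcon
        push Not at hcon
        exact no_int (p := 5) (m := 15) (N₁ := (5 ^ 1 + 1) / 2) (N₂ := (5 ^ 2 + 1) / 2) (by norm_num)
          (by norm_num) (by norm_num) (by norm_num) d (hcon 1 (by simp)) (hcon 2 (by simp))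
          (by decide +kernel)
      · by_contra hcon
        push Not at hcon
        exact no_int (p := 5) (m := 15) (N₁ := 5 ^ 1 - 1) (N₂ := 5 ^ 2 - 1) (by norm_num)
          (by norm_num) (by norm_num) (by norm_num) d (hcon 1 (by simp)) (hcon 2 (by simp))
          (by decide +kernel)
    · constructor
      · by_contra hcon
        push Not at hcon
        exact no_int (p := 7) (m := 19) (N₁ := (7 ^ 1 + 1) / 2) (N₂ := (7 ^ 2 + 1) / 2) (by norm_num)
          (by norm_num) (by norm_num) (by norm_num) d (hcon 1 (by simp)) (hcon 2 (by simp))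
          (by decide +kernel)
      · by_contra hcon
        push Not at hcon
        exact no_int (p := 7) (m := 19) (N₁ := 7 ^ 1 - 1) (N₂ := 7 ^ 2 - 1) (by norm_num)
          (by norm_num) (by norm_num) (by norm_num) d (hcon 1 (by simp)) (hcon 2 (by simp))
          (by decide +kernel)
  refine ⟨key, fun h => ?_⟩
  obtain ⟨d, hd⟩ := h 19 (by norm_num) (by decide)
  obtain ⟨⟨r, hr, h1⟩, -⟩ := key (19, 7) (by simp) d
  have hr1 : 1 ≤ r := by
    simp only [Finset.mem_insert, Finset.mem_singleton] at hr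
    omega
  exact h1 (hd 7 (by norm_num) (by decide) r hr1).1

end Pool.Agent.Results.MP_270153_nt.NoConstants
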